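import Pool.Agent.W787.PS.StmA

/-!
# Project PS: abstract lemma on concentration points
-/

open MeasureTheory Set Metric Filter Topology

noncomputable section

namespace Pool.Agent.W787.PS

section

variable {Y : Type} [TopologicalSpace Y] [T2Space Y] [MeasurableSpace Y] [BorelSpace Y]

theorem abs_finite (𝒰 : Ultrafilter ℕ) (μ : ℕ → Measure Y) (Λ τ : ℝ)
    (hf : ∀ n, IsFiniteMeasure (μ n))
    (hΛ : ∀ᶠ n in (𝒰 : Filter ℕ), (μ n).real univ ≤ Λ) (hτ : 0 < τ) (S0 : Set Y)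
    (hS : ∀ y ∈ S0, ∀ U, IsOpen U → y ∈ U → ∀ᶠ n in (𝒰 : Filter ℕ), τ ≤ (μ n).real U) :
    S0.Finite := by
  by_contra hinf
  have hinf : S0.Infinite := hinf
  obtain ⟨T, hT, hc⟩ := hinf.exists_subset_card_eq (Nat.floor (Λ / τ) + 1)
  obtain ⟨f, hfo', hfd⟩ := T.finite_toSet.t2_separation
  have hfo : ∀ y ∈ T, y ∈ f y ∧ IsOpen (f y) := fun y _ => hfo' y
  have h1 : ∀ᶠ n in (𝒰 : Filter ℕ), ∀ y ∈ T, τ ≤ (μ n).real (f y) := by
    rw [Filter.eventually_all_finset]
    intro y hy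
    exact hS y (hT hy) (f y) (hfo y hy).2 (hfo y hy).1
  obtain ⟨n, hn1, hn2⟩ := (h1.and hΛ).exists
  have := hf n
  have h2 : (μ n).real (⋃ y ∈ T, f y) = ∑ y ∈ T, (μ n).real (f y) :=
    measureReal_biUnion_finset hfd (fun y hy => (hfo y hy).2.measurableSet)
  have h3 : (μ n).real (⋃ y ∈ T, f y) ≤ (μ n).real univ := measureReal_mono (subset_univ _)
  have h4 : (T.card : ℝ) * τ ≤ ∑ y ∈ T, (μ n).real (f y) := by
    rw [← nsmul_eq_mul]
    exact Finset.card_nsmul_le_sum _ _ _ hn1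
  have h5 : (T.card : ℝ) * τ ≤ Λ := by linarith
  have h6 : (T.card : ℝ) ≤ Λ / τ := by rwa [le_div_iff₀ hτ]
  rw [hc] at h6
  have h7 := Nat.lt_floor_add_one (Λ / τ)
  push_cast at h6
  linarith

theorem abs_vanish (𝒰 : Ultrafilter ℕ) (μ : ℕ → Measure Y)
    (hf : ∀ n, IsFiniteMeasure (μ n)) (C : Set Y) (hC : IsCompact C)
    (h : ∀ y ∈ C, ∃ U, IsOpen U ∧ y ∈ U ∧ Tendsto (fun n => (μ n).real U) 𝒰 (𝓝 0)) :
    Tendsto (fun n => (μ n).real C) 𝒰 (𝓝 0) := by
  refine hC.induction_on (p := fun s => Tendsto (fun n => (μ n).real s) 𝒰 (𝓝 0)) ?_ ?_ ?_ ?_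
  · simp
  · intro s t hst ht
    refine squeeze_zero (fun n => measureReal_nonneg) (fun n => ?_) ht
    have := hf n
    exact measureReal_mono hst
  · intro s t hs ht
    have h0 : Tendsto (fun n => (μ n).real s + (μ n).real t) 𝒰 (𝓝 0) := by
      simpa using hs.add ht
    refine squeeze_zero (fun n => measureReal_nonneg) (fun n => ?_) h0
    exact measureReal_union_le s t
  · intro x hx
    obtain ⟨U, hU, hxU, ht⟩ := h x hx
    exact ⟨U, mem_nhdsWithin_of_mem_nhds (hU.mem_nhds hxU), ht⟩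

theorem abs_limit (𝒰 : Ultrafilter ℕ) (μ : ℕ → Measure Y) (Λ : ℝ)
    (hf : ∀ n, IsFiniteMeasure (μ n))
    (hΛ : ∀ᶠ n in (𝒰 : Filter ℕ), (μ n).real univ ≤ Λ) (U : Set Y) :
    ∃ m : ℝ, Tendsto (fun n => (μ n).real U) 𝒰 (𝓝 m) := by
  have h : ((𝒰.map fun n => (μ n).real U : Ultrafilter ℝ) : Filter ℝ) ≤ 𝓟 (Icc 0 Λ) := by
    rw [Filter.le_principal_iff]
    change Icc 0 Λ ∈ Filter.map (fun n => (μ n).real U) (𝒰 : Filter ℕ)
    rw [Filter.mem_map]
    filter_upwards [hΛ] with n hn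
    have := hf n
    exact ⟨measureReal_nonneg, (measureReal_mono (subset_univ _)).trans hn⟩
  obtain ⟨m, -, hm⟩ := isCompact_Icc.ultrafilter_le_nhds _ h
  exact ⟨m, hm⟩

end

theorem abs_lemma : S_ABS := by
  intro Y _ _ _ _ 𝒰 μ Λ τ hf hΛ hτ K hK hyp
  classical
  set S0 : Set Y := {y | y ∈ K ∧ K ∈ 𝓝 y ∧ ∀ U, IsOpen U → y ∈ U →
    ∀ᶠ n in (𝒰 : Filter ℕ), τ ≤ (μ n).real U} with hS0
  have hfin : S0.Finite := abs_finite 𝒰 μ Λ τ hf hΛ hτ S0 (fun y hy => hy.2.2)
  set S : Finset Y := hfin.toFinset with hSdef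
  have hSmem : ∀ y, y ∈ S ↔ y ∈ S0 := fun y => hfin.mem_toFinset
  obtain ⟨f, hfo', hfd⟩ := S.finite_toSet.t2_separation
  have hfo : ∀ y ∈ S, y ∈ f y ∧ IsOpen (f y) := fun y _ => hfo' y
  -- disjoint open sets inside the interior of `K`
  set U : Y → Set Y := fun y => f y ∩ interior K with hU
  have hUo : ∀ y ∈ S, IsOpen (U y) := fun y hy => (hfo y hy).2.inter isOpen_interior
  have hUy : ∀ y ∈ S, y ∈ U y := fun y hy =>
    ⟨(hfo y hy).1, mem_interior_iff_mem_nhds.2 ((hSmem y).1 hy).2.1⟩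
  have hUK : ∀ y, U y ⊆ K := fun y x hx => interior_subset hx.2
  have hUd : Set.PairwiseDisjoint (↑S) U := fun y hy z hz hyz =>
    (hfd hy hz hyz).mono inter_subset_left inter_subset_left
  -- the mass outside neighbourhoods of the points of `S` vanishes
  have hV : ∀ V : Y → Set Y, (∀ y ∈ S, IsOpen (V y)) → (∀ y ∈ S, y ∈ V y) →
      Tendsto (fun n => (μ n).real (K \ ⋃ y ∈ S, V y)) 𝒰 (𝓝 0) := by
    intro V hVo hVy
    refine abs_vanish 𝒰 μ hf _ (hK.diff (isOpen_biUnion hVo)) ?_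
    intro x hx
    rcases hyp x hx.1 with h | ⟨h1, h2⟩
    · exact h
    · exfalso
      apply hx.2
      have hxS : x ∈ S := (hSmem x).2 ⟨hx.1, h1, h2⟩
      exact mem_biUnion hxS (hVy x hxS)
  choose m hm using fun y => abs_limit 𝒰 μ Λ hf hΛ (U y)
  refine ⟨S, m, fun y hy => ((hSmem y).1 hy).1, fun y hy => ((hSmem y).1 hy).2.2, ?_, ?_⟩
  · intro y hy
    refine ⟨U y, hUo y hy, hUy y hy, ?_⟩
    intro V hVo hyV hVU
    have h1 := hV (fun z => if z = y then V else U z)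
      (fun z hz => by
        by_cases hzy : z = y
        · simpa [hzy] using hVo
        · simpa [hzy] using hUo z hz)
      (fun z hz => by
        by_cases hzy : z = y
        · simpa [hzy] using hyV
        · simpa [hzy] using hUy z hz)
    have h2 : Tendsto (fun n => (μ n).real (U y \ V)) 𝒰 (𝓝 0) := by
      refine squeeze_zero (fun n => measureReal_nonneg) (fun n => ?_) h1
      have := hf n
      refine measureReal_mono ?_
      intro x hx
      refine ⟨hUK y hx.1, ?_⟩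
      rw [mem_iUnion₂]
      rintro ⟨z, hz, hxz⟩
      by_cases hzy : z = y
      · rw [if_pos hzy] at hxz
        exact hx.2 hxz
      · rw [if_neg hzy] at hxz
        exact (disjoint_left.1 (hUd hz hy hzy) hxz) hx.1
    have h3 : ∀ n, (μ n).real V = (μ n).real (U y) - (μ n).real (U y \ V) := by
      intro n
      have := hf n
      have := measureReal_diff_add_inter (μ := μ n) (s := U y) (t := V) hVo.measurableSet
      rw [inter_eq_self_of_subset_right hVU] at this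
      linarith
    have h4 := (hm y).sub h2
    rw [sub_zero] at h4
    exact h4.congr (fun n => (h3 n).symm)
  · have h1 := hV U hUo hUy
    have h2 : ∀ n, (μ n).real K = ∑ y ∈ S, (μ n).real (U y) + (μ n).real (K \ ⋃ y ∈ S, U y) := by
      intro n
      have := hf n
      have hmU : MeasurableSet (⋃ y ∈ S, U y) := (isOpen_biUnion hUo).measurableSet
      have := measureReal_diff_add_inter (μ := μ n) (s := K) (t := ⋃ y ∈ S, U y) hmU
      rw [inter_eq_self_of_subset_right (iUnion₂_subset fun y _ => hUK y),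
        measureReal_biUnion_finset hUd (fun y hy => (hUo y hy).measurableSet)] at this
      linarith
    have h3 : Tendsto (fun n => ∑ y ∈ S, (μ n).real (U y) + (μ n).real (K \ ⋃ y ∈ S, U y)) 𝒰
        (𝓝 (∑ y ∈ S, m y + 0)) :=
      (tendsto_finset_sum _ fun y _ => hm y).add h1
    rw [add_zero] at h3
    exact h3.congr (fun n => (h2 n).symm)

end Pool.Agent.W787.PS
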